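import Mathlib

/-!
# MP_bc8080_lc: fusion along a tree of convergent long sequences
-/

set_option autoImplicit false

namespace Pool.BC8080

open Cardinal Filter Set

/-- Any `κ` functions in the product of the cardinals `lam n` have an upper bound modulo finite sets. -/
def Dir (lam : ℕ → Cardinal.{0}) (κ : Cardinal.{0}) : Prop :=
  ∀ (I : Type) (F : I → ℕ → Ordinal.{0}), #I ≤ κ → (∀ i n, F i n < (lam n).ord) →
    ∃ g : ℕ → Ordinal.{0}, (∀ n, g n < (lam n).ord) ∧ ∀ i, ∀ᶠ n in atTop, F i n ≤ g n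

theorem Dir.comp {lam : ℕ → Cardinal.{0}} {κ : Cardinal.{0}} (h : Dir lam κ)
    (hreg : ∀ n, (lam n).IsRegular) {φ : ℕ → ℕ} (hφ : StrictMono φ) : Dir (lam ∘ φ) κ := by
  classical
  intro I F hI hF
  obtain ⟨g, hg, hg2⟩ := h I (fun i m => if h : ∃ n, φ n = m then F i h.choose else 0) hI (by
    intro i m
    split_ifs with h
    · have h1 := hF i h.choose
      rw [Function.comp_apply, h.choose_spec] at h1
      exact h1
    · exact (hreg m).ord_pos)
  refine ⟨g ∘ φ, fun n => hg (φ n), fun i => ?_⟩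
  filter_upwards [hφ.tendsto_atTop.eventually (hg2 i)] with n hn
  have h1 : ∃ n', φ n' = φ n := ⟨n, rfl⟩
  rw [dif_pos h1] at hn
  have h2 : h1.choose = n := hφ.injective h1.choose_spec
  rw [h2] at hn
  exact hn

section fusion

variable {X I : Type} {lam : ℕ → Cardinal.{0}} {κ : Cardinal.{0}}

/-- The nodes of the tree. -/
private def Nd (lam : ℕ → Cardinal.{0}) (y : ℕ → X → Ordinal.{0} → X) (x₀ : X) : ℕ → Set X
  | 0 => {x₀}
  | k + 1 => (fun p : X × Ordinal.{0} => y k p.1 p.2) '' (Nd lam y x₀ k ×ˢ Iio (lam k).ord)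

private theorem card_Nd (hreg : ∀ n, (lam n).IsRegular) (hmono : StrictMono lam)
    (y : ℕ → X → Ordinal.{0} → X) (x₀ : X) (k : ℕ) : #(Nd lam y x₀ k) < lam k := by
  induction k with
  | zero =>
    show #({x₀} : Set X) < lam 0
    rw [Cardinal.mk_singleton]
    exact lt_of_lt_of_le Cardinal.one_lt_aleph0 (hreg 0).aleph0_le
  | succ k ih =>
    have h1 : Cardinal.lift.{1} #(Nd lam y x₀ (k + 1)) ≤
        #(Nd lam y x₀ k ×ˢ Iio (lam k).ord : Set (X × Ordinal.{0})) := by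
      have := Cardinal.mk_image_le_lift (f := fun p : X × Ordinal.{0} => y k p.1 p.2)
        (s := (Nd lam y x₀ k ×ˢ Iio (lam k).ord : Set (X × Ordinal.{0})))
      rw [Cardinal.lift_id'] at this
      exact this
    have h2 : #(Nd lam y x₀ k ×ˢ Iio (lam k).ord : Set (X × Ordinal.{0})) =
        Cardinal.lift.{1} (#(Nd lam y x₀ k) * lam k) := by
      rw [Cardinal.mk_congr (Equiv.Set.prod _ _), Cardinal.mk_prod, Cardinal.mk_Iio_ordinal,
        Cardinal.card_ord, Cardinal.lift_mul]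
      simp
    rw [h2, Cardinal.lift_le] at h1
    refine lt_of_le_of_lt h1 (lt_of_le_of_lt ?_ (hmono (Nat.lt_succ_self k)))
    calc #(Nd lam y x₀ k) * lam k ≤ lam k * lam k := mul_le_mul_left ih.le _
      _ = lam k := Cardinal.mul_eq_self (hreg k).aleph0_le

/-- Fusion: a tree of height `ω` in which every node at level `k` is the limit of a sequence of
length `lam k` of nodes at level `k + 1`, with respect to a family `C` of at most `κ` sets,
has a branch along which membership in each `C i` is eventually hereditary. At level `k` only the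
indices in `J k` are taken into account. -/
theorem fusion (hreg : ∀ n, (lam n).IsRegular) (hmono : StrictMono lam) (hD : Dir lam κ)
    (hI : #I ≤ κ) (J : ℕ → Set I) (C : I → Set X) (T : ℕ → Set X) (x₀ : X) (h0 : x₀ ∈ T 0)
    (hT : ∀ k, ∀ x ∈ T k, ∃ y : Ordinal.{0} → X,
      (∀ ξ < (lam k).ord, y ξ ∈ T (k + 1) ∧ y ξ ≠ x) ∧
      ∀ i ∈ J k, x ∈ C i → ∃ η < (lam k).ord, ∀ ξ, η ≤ ξ → ξ < (lam k).ord → y ξ ∈ C i) :
    ∃ q : ℕ → X, (∀ k, q k ∈ T k) ∧ (∀ k, q (k + 1) ≠ q k) ∧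
      ∀ i, (∀ᶠ k in atTop, i ∈ J k) → ∀ᶠ k in atTop, q k ∈ C i → q (k + 1) ∈ C i := by
  classical
  have : Nonempty X := ⟨x₀⟩
  choose! y hy hη using hT
  set th : ℕ → X → I → Ordinal.{0} := fun k x i =>
    if h : x ∈ T k ∧ i ∈ J k ∧ x ∈ C i then (hη k x h.1 i h.2.1 h.2.2).choose else 0 with hth
  have hth1 : ∀ k x i, th k x i < (lam k).ord := by
    intro k x i
    rw [hth]
    dsimp only
    split_ifs with h
    · exact (hη k x h.1 i h.2.1 h.2.2).choose_spec.1
    · exact (hreg k).ord_pos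
  have hth2 : ∀ k x i, x ∈ T k → i ∈ J k → x ∈ C i → ∀ ξ, th k x i ≤ ξ → ξ < (lam k).ord →
      y k x ξ ∈ C i := by
    intro k x i h1 h0 h2 ξ h3 h4
    rw [hth] at h3
    dsimp only at h3
    rw [dif_pos ⟨h1, h0, h2⟩] at h3
    exact (hη k x h1 i h0 h2).choose_spec.2 ξ h3 h4
  obtain ⟨g, hg, hg2⟩ := hD I (fun i k => ⨆ x : Nd lam y x₀ k, th k x i) hI (fun i k =>
    Ordinal.iSup_lt_of_lt_cof (by rw [(hreg k).cof_ord]; exact card_Nd hreg hmono y x₀ k)
      fun x => hth1 k x i)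
  let q : ℕ → X := fun n => Nat.rec x₀ (fun k x => y k x (g k)) n
  have hq0 : q 0 = x₀ := rfl
  have hqs : ∀ k, q (k + 1) = y k (q k) (g k) := fun _ => rfl
  have hqT : ∀ k, q k ∈ T k ∧ q k ∈ Nd lam y x₀ k := by
    intro k
    induction k with
    | zero => exact ⟨h0, rfl⟩
    | succ k ih =>
      rw [hqs]
      exact ⟨(hy k _ ih.1 _ (hg k)).1, ⟨(q k, g k), ⟨ih.2, hg k⟩, rfl⟩⟩
  refine ⟨q, fun k => (hqT k).1, fun k => ?_, fun i hJ => ?_⟩
  · rw [hqs]
    exact (hy k _ (hqT k).1 _ (hg k)).2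
  · filter_upwards [hg2 i, hJ] with k hk hJk hC
    rw [hqs]
    refine hth2 k (q k) i (hqT k).1 hJk hC (g k) (le_trans ?_ hk) (hg k)
    exact Ordinal.le_iSup (fun x : Nd lam y x₀ k => th k x i) ⟨q k, (hqT k).2⟩

end fusion

end Pool.BC8080
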