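import Mathlib
import Pool.Agent.Lib_MP_bc8080_lc.Fusion

/-!
# MP_bc8080_lc: inverse limits of simple extensions with small supports
-/

set_option autoImplicit false

namespace Pool.BC8080

open Cardinal Filter Set Topology

/-- The point `x` satisfies the constraint given by the sets `V` and `W` at the coordinate `α`. -/
def OkAt {θ : Type} (V W : θ → Set (θ → Bool)) (x : θ → Bool) (α : θ) : Prop :=
  (x ∈ V α → x α = true) ∧ (x ∈ W α → x α = false)

/-- A system of simple extensions along a linear order: the value at `α` must be `true` on the open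
set `V α` and `false` on the open set `W α`, it is free elsewhere; `V α` and `W α` depend only on
the coordinates in `supp α`, which are smaller than `α`, and no point which satisfies the
constraints below `α` lies in both of them. -/
structure Sys (θ : Type) [LinearOrder θ] where
  supp : θ → Set θ
  V : θ → Set (θ → Bool)
  W : θ → Set (θ → Bool)
  supp_lt : ∀ α, ∀ β ∈ supp α, β < α
  openV : ∀ α, IsOpen (V α)
  openW : ∀ α, IsOpen (W α)
  depV : ∀ α (x y : θ → Bool), (∀ β ∈ supp α, x β = y β) → x ∈ V α → y ∈ V α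
  depW : ∀ α (x y : θ → Bool), (∀ β ∈ supp α, x β = y β) → x ∈ W α → y ∈ W α
  disj : ∀ α (x : θ → Bool), (∀ β < α, OkAt V W x β) → x ∈ V α → x ∉ W α

/-- The inverse limit: a closed subspace of the Cantor cube. -/
def Sys.space {θ : Type} [LinearOrder θ] (S : Sys θ) : Set (θ → Bool) :=
  {x | ∀ α, OkAt S.V S.W x α}

/-- A set contains a non-trivial convergent sequence. -/
def HasConv {Y : Type} [TopologicalSpace Y] (X : Set Y) : Prop :=
  ∃ (u : ℕ → Y) (p : Y), p ∈ X ∧ (∀ n, u n ∈ X ∧ u n ≠ p) ∧ Tendsto u atTop (𝓝 p)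

/-- Every family of at most `μ` sets of natural numbers with all finite intersections infinite has
an infinite pseudo-intersection (that is, the pseudo-intersection number is larger than `μ`). -/
def PseudoInt (μ : Cardinal.{0}) : Prop :=
  ∀ F : Set (Set ℕ), #F ≤ μ → (∀ t : Finset (Set ℕ), (t : Set (Set ℕ)) ⊆ F → (⋂ s ∈ t, s).Infinite) →
    ∃ P : Set ℕ, P.Infinite ∧ ∀ s ∈ F, (P \ s).Finite

section sys

variable {θ : Type} [LinearOrder θ] (S : Sys θ)

theorem Sys.isClosed_space : IsClosed S.space := by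
  have h1 : S.space = ⋂ α, (({x | x ∈ S.V α}ᶜ ∪ {x | x α = true}) ∩
      ({x | x ∈ S.W α}ᶜ ∪ {x | x α = false})) := by
    ext x
    simp only [Sys.space, OkAt, mem_ofPred_eq, mem_iInter, mem_inter_iff, mem_union,
      mem_compl_iff]
    refine forall_congr' fun α => ?_
    tauto
  rw [h1]
  refine isClosed_iInter fun α => ?_
  have hb : ∀ b : Bool, IsClosed {x : θ → Bool | x α = b} := fun b =>
    isClosed_singleton.preimage (continuous_apply α)
  exact ((S.openV α).isClosed_compl.union (hb true)).inter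
    ((S.openW α).isClosed_compl.union (hb false))

/-- The coordinates at which both values are allowed. -/
def Sys.free (x : θ → Bool) : Set θ := {α | x ∉ S.V α ∧ x ∉ S.W α}

theorem Sys.eq_of_free [WellFoundedLT θ] {x y : θ → Bool} (hx : x ∈ S.space) (hy : y ∈ S.space)
    (h : ∀ α ∈ S.free x, x α = y α) : x = y := by
  funext γ
  induction γ using WellFoundedLT.induction with
  | _ γ ih =>
    by_cases hγ : γ ∈ S.free x
    · exact h γ hγ
    · have hag : ∀ β ∈ S.supp γ, x β = y β := fun β hβ => ih β (S.supp_lt γ β hβ)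
      have h1 : x ∈ S.V γ ∨ x ∈ S.W γ := by
        by_contra h2
        push Not at h2
        exact hγ h2
      rcases h1 with h1 | h1
      · rw [(hx γ).1 h1, (hy γ).1 (S.depV γ x y hag h1)]
      · rw [(hx γ).2 h1, (hy γ).2 (S.depW γ x y hag h1)]

theorem Sys.mem_V_iff {γ : θ} {x y : θ → Bool} (h : ∀ β < γ, x β = y β) :
    x ∈ S.V γ ↔ y ∈ S.V γ :=
  ⟨S.depV γ x y fun β hβ => h β (S.supp_lt γ β hβ),
    S.depV γ y x fun β hβ => (h β (S.supp_lt γ β hβ)).symm⟩

theorem Sys.mem_W_iff {γ : θ} {x y : θ → Bool} (h : ∀ β < γ, x β = y β) :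
    x ∈ S.W γ ↔ y ∈ S.W γ :=
  ⟨S.depW γ x y fun β hβ => h β (S.supp_lt γ β hβ),
    S.depW γ y x fun β hβ => (h β (S.supp_lt γ β hβ)).symm⟩

open scoped Classical in
/-- Recursive definition of a point: prescribed values on `P`, the forced value outside `P` where
there is one, and the default value `d` elsewhere. -/
theorem Sys.exists_rec [WellFoundedLT θ] (P : Set θ) (d : θ → Bool) :
    ∃ y : θ → Bool, ∀ γ, y γ = if γ ∈ P then d γ else if y ∈ S.V γ then true
      else if y ∈ S.W γ then false else d γ := by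
  let ex : ∀ γ : θ, (∀ β, β < γ → Bool) → (θ → Bool) := fun γ r β =>
    if h : β < γ then r β h else false
  let F : ∀ γ : θ, (∀ β, β < γ → Bool) → Bool := fun γ r =>
    if γ ∈ P then d γ else if ex γ r ∈ S.V γ then true
      else if ex γ r ∈ S.W γ then false else d γ
  let y : θ → Bool := WellFounded.fix (r := (· < ·)) wellFounded_lt F
  have hy : ∀ γ, y γ = F γ fun β _ => y β := fun γ => WellFounded.fix_eq _ F γ
  refine ⟨y, fun γ => ?_⟩
  have h1 : ∀ β < γ, ex γ (fun β _ => y β) β = y β := fun β hβ => dif_pos hβ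
  rw [hy γ]
  show (if γ ∈ P then d γ else if ex γ (fun β _ => y β) ∈ S.V γ then true
      else if ex γ (fun β _ => y β) ∈ S.W γ then false else d γ) = _
  simp only [S.mem_V_iff h1, S.mem_W_iff h1]

/-- A point whose value at every coordinate outside `P` is the forced one wherever there is one,
and which satisfies the constraints on `P`, is in the space. -/
theorem Sys.mem_space_of_rule [WellFoundedLT θ] {y : θ → Bool} (d : θ → Bool) (γ : θ)
    (hy : ∀ δ < γ, (∀ β < δ, OkAt S.V S.W y β) → OkAt S.V S.W y δ ∨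
      (y ∈ S.V δ ∧ y δ = true) ∨ (y ∉ S.V δ ∧ y ∈ S.W δ ∧ y δ = false) ∨
      (y ∉ S.V δ ∧ y ∉ S.W δ ∧ y δ = d δ)) : ∀ δ < γ, OkAt S.V S.W y δ := by
  intro δ
  induction δ using WellFoundedLT.induction with
  | _ δ ih =>
    intro hδ
    have h1 : ∀ β < δ, OkAt S.V S.W y β := fun β hβ => ih β hβ (hβ.trans hδ)
    rcases hy δ hδ h1 with h | ⟨h2, h3⟩ | ⟨h2, h3, h4⟩ | ⟨h2, h3, h4⟩
    · exact h
    · exact ⟨fun _ => h3, fun h5 => absurd h5 (S.disj δ y h1 h2)⟩
    · exact ⟨fun h5 => absurd h5 h2, fun _ => h4⟩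
    · exact ⟨fun h5 => absurd h5 h2, fun h5 => absurd h5 h3⟩

/-- The same for all coordinates. -/
theorem Sys.mem_space_of_rule_all [WellFoundedLT θ] {y : θ → Bool} (d : θ → Bool)
    (hy : ∀ δ, (∀ β < δ, OkAt S.V S.W y β) → OkAt S.V S.W y δ ∨
      (y ∈ S.V δ ∧ y δ = true) ∨ (y ∉ S.V δ ∧ y ∈ S.W δ ∧ y δ = false) ∨
      (y ∉ S.V δ ∧ y ∉ S.W δ ∧ y δ = d δ)) : y ∈ S.space := by
  intro δ
  have h1 := S.mem_space_of_rule d δ fun δ' _ => hy δ'
  rcases hy δ h1 with h | ⟨h2, h3⟩ | ⟨h2, h3, h4⟩ | ⟨h2, h3, h4⟩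
  · exact h
  · exact ⟨fun _ => h3, fun h5 => absurd h5 (S.disj δ y h1 h2)⟩
  · exact ⟨fun h5 => absurd h5 h2, fun _ => h4⟩
  · exact ⟨fun h5 => absurd h5 h2, fun h5 => absurd h5 h3⟩

/-- The rule of `Sys.exists_rec` in the form needed for `Sys.mem_space_of_rule`. -/
theorem Sys.rule_of_rec {P : Set θ} {d y : θ → Bool} {γ : θ} (hγ : γ ∉ P)
    (h : y γ = open scoped Classical in if γ ∈ P then d γ else if y ∈ S.V γ then true
      else if y ∈ S.W γ then false else d γ) :
    (y ∈ S.V γ ∧ y γ = true) ∨ (y ∉ S.V γ ∧ y ∈ S.W γ ∧ y γ = false) ∨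
      (y ∉ S.V γ ∧ y ∉ S.W γ ∧ y γ = d γ) := by
  classical
  rw [if_neg hγ] at h
  by_cases h2 : y ∈ S.V γ
  · rw [if_pos h2] at h
    exact Or.inl ⟨h2, h⟩
  · rw [if_neg h2] at h
    by_cases h3 : y ∈ S.W γ
    · rw [if_pos h3] at h
      exact Or.inr (Or.inl ⟨h2, h3, h⟩)
    · rw [if_neg h3] at h
      exact Or.inr (Or.inr ⟨h2, h3, h⟩)

/-- Flip the value at the free coordinate `α` and then follow `x` as far as possible. -/
theorem Sys.exists_flip [WellFoundedLT θ] {x : θ → Bool} (hx : x ∈ S.space) {α : θ}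
    (hα : α ∈ S.free x) : ∃ y ∈ S.space, y α ≠ x α ∧ ∀ γ, γ ≠ α →
      (∀ β ∈ S.supp γ, y β = x β) → y γ = x γ := by
  classical
  obtain ⟨y, hy⟩ := S.exists_rec (Iic α) (fun γ => if γ = α then !(x γ) else x γ)
  have hlt : ∀ γ < α, y γ = x γ := by
    intro γ hγ
    rw [hy γ, if_pos (show γ ∈ Iic α from hγ.le), if_neg hγ.ne]
  have hya : y α = !(x α) := by
    rw [hy α, if_pos (show α ∈ Iic α from le_refl α), if_pos rfl]
  have hfr : y ∉ S.V α ∧ y ∉ S.W α := by
    rw [S.mem_V_iff hlt, S.mem_W_iff hlt]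
    exact hα
  have hyS : y ∈ S.space := by
    refine S.mem_space_of_rule_all (fun γ => if γ = α then !(x γ) else x γ) fun γ _ => ?_
    rcases lt_trichotomy γ α with h | h | h
    · left
      have h1 : ∀ β < γ, y β = x β := fun β hβ => hlt β (hβ.trans h)
      unfold OkAt
      rw [S.mem_V_iff h1, S.mem_W_iff h1, hlt γ h]
      exact hx γ
    · left
      rw [h]
      exact ⟨fun h2 => absurd h2 hfr.1, fun h2 => absurd h2 hfr.2⟩
    · right
      exact S.rule_of_rec (P := Iic α) (d := fun γ => if γ = α then !(x γ) else x γ) (y := y)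
        (show γ ∉ Iic α from not_le.2 h) (hy γ)
  refine ⟨y, hyS, ?_, ?_⟩
  · rw [hya]
    cases x α <;> simp
  · intro γ hγ hs
    rcases lt_or_gt_of_ne hγ with h | h
    · exact hlt γ h
    · have hV : y ∈ S.V γ → x ∈ S.V γ := S.depV γ y x hs
      have hW : y ∈ S.W γ → x ∈ S.W γ := S.depW γ y x hs
      rcases S.rule_of_rec (P := Iic α) (d := fun γ => if γ = α then !(x γ) else x γ) (y := y)
        (show γ ∉ Iic α from not_le.2 h) (hy γ) with
        ⟨h2, h3⟩ | ⟨h2, h3, h4⟩ | ⟨h2, h3, h4⟩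
      · rw [h3, (hx γ).1 (hV h2)]
      · rw [h4, (hx γ).2 (hW h3)]
      · rw [h4, if_neg hγ]

end sys

end Pool.BC8080
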