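import Mathlib
import Pool.Agent.Lib_MP_bc8080_lc.Sys

/-!
# MP_bc8080_lc: long convergent sequences in inverse limits with small supports
-/

set_option autoImplicit false

namespace Pool.BC8080

open Cardinal Filter Set Topology

variable {θ : Type} [LinearOrder θ] [WellFoundedLT θ] (S : Sys θ)

/-- Flipping at an injective sequence of free coordinates gives a convergent sequence. -/
theorem Sys.tendsto_flip {Λ : Cardinal.{0}} (hΛ : Λ.IsRegular) {G : Set θ}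
    (hs : ∀ α ∈ G, #(S.supp α) < Λ ∧ S.supp α ⊆ G)
    (x : θ → Bool) (e : Ordinal.{0} → θ)
    (he : ∀ ξ < Λ.ord, ∀ ξ' < Λ.ord, e ξ = e ξ' → ξ = ξ') (y : Ordinal.{0} → θ → Bool)
    (hy : ∀ ξ < Λ.ord, ∀ γ, γ ≠ e ξ → (∀ β ∈ S.supp γ, y ξ β = x β) → y ξ γ = x γ) (γ : θ)
    (hγG : γ ∈ G) : ∃ η < Λ.ord, ∀ ξ, η ≤ ξ → ξ < Λ.ord → y ξ γ = x γ := by
  classical
  induction γ using WellFoundedLT.induction with
  | _ γ ih =>
    choose! η hη hη2 using ih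
    have h1 : (⨆ β : S.supp γ, η β) < Λ.ord := by
      refine Ordinal.iSup_lt_of_lt_cof (by rw [hΛ.cof_ord]; exact (hs γ hγG).1) fun β => ?_
      exact hη β (S.supp_lt γ β β.2) ((hs γ hγG).2 β.2)
    have h2 : ∀ ξ, (⨆ β : S.supp γ, η β) ≤ ξ → ξ < Λ.ord → ∀ β ∈ S.supp γ, y ξ β = x β := by
      intro ξ h3 h4 β hβ
      refine hη2 β (S.supp_lt γ β hβ) ((hs γ hγG).2 hβ) ξ (le_trans ?_ h3) h4
      exact Ordinal.le_iSup (fun β : S.supp γ => η β) ⟨β, hβ⟩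
    by_cases h3 : ∃ ξ < Λ.ord, e ξ = γ
    · obtain ⟨ξ₀, h4, h5⟩ := h3
      refine ⟨max (⨆ β : S.supp γ, η β) (Order.succ ξ₀), max_lt h1 ?_, fun ξ h6 h7 => ?_⟩
      · exact (Cardinal.isSuccLimit_ord hΛ.aleph0_le).succ_lt h4
      · refine hy ξ h7 γ ?_ (h2 ξ (le_trans (le_max_left _ _) h6) h7)
        intro h8
        have h9 := he ξ₀ h4 ξ h7 (h5.trans h8)
        have h10 : Order.succ ξ₀ ≤ ξ := le_trans (le_max_right _ _) h6
        rw [← h9] at h10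
        exact absurd (Order.lt_succ ξ₀) (not_lt.2 h10)
    · push Not at h3
      exact ⟨_, h1, fun ξ h6 h7 => hy ξ h7 γ (fun h8 => h3 ξ h7 h8.symm) (h2 ξ h6 h7)⟩

/-- A point with more than `μ` free coordinates in `G` is, for every regular `Λ ≤ μ` above the
sizes of the supports of the elements of `G`, the limit, on `G`, of a sequence of length `Λ` of
other points of the same kind. -/
theorem Sys.exists_long {Λ μ : Cardinal.{0}} (hΛ : Λ.IsRegular) {G : Set θ}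
    (hs : ∀ α ∈ G, #(S.supp α) < Λ ∧ S.supp α ⊆ G)
    (hμ : Λ ≤ μ) {x : θ → Bool} (hx : x ∈ S.space) (hfr : μ < #(S.free x ∩ G : Set θ)) :
    ∃ y : Ordinal.{0} → θ → Bool,
      (∀ ξ < Λ.ord, (y ξ ∈ S.space ∧ μ < #(S.free (y ξ) ∩ G : Set θ)) ∧ y ξ ≠ x) ∧
      ∀ γ ∈ G, ∃ η < Λ.ord, ∀ ξ, η ≤ ξ → ξ < Λ.ord → y ξ γ = x γ := by
  classical
  have hω : ℵ₀ ≤ μ := hΛ.aleph0_le.trans hμ
  -- an injective sequence of free coordinates
  obtain ⟨f⟩ : Nonempty (Iio Λ.ord ↪ (S.free x ∩ G : Set θ)) := by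
    rw [← Cardinal.lift_mk_le', Cardinal.mk_Iio_ordinal, Cardinal.card_ord]
    simpa using (hμ.trans hfr.le)
  have hne : Nonempty θ := ⟨(f ⟨0, hΛ.ord_pos⟩ : θ)⟩
  let e : Ordinal.{0} → θ := fun ξ => if h : ξ < Λ.ord then (f ⟨ξ, h⟩ : θ) else hne.some
  have he1 : ∀ ξ < Λ.ord, e ξ ∈ S.free x := by
    intro ξ h
    show (if h : ξ < Λ.ord then (f ⟨ξ, h⟩ : θ) else hne.some) ∈ _
    rw [dif_pos h]
    exact (f ⟨ξ, h⟩).2.1
  have he2 : ∀ ξ < Λ.ord, ∀ ξ' < Λ.ord, e ξ = e ξ' → ξ = ξ' := by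
    intro ξ h ξ' h' heq
    have h1 : (f ⟨ξ, h⟩ : θ) = f ⟨ξ', h'⟩ := by
      have e1 : e ξ = f ⟨ξ, h⟩ := dif_pos h
      have e2 : e ξ' = f ⟨ξ', h'⟩ := dif_pos h'
      rw [← e1, ← e2, heq]
    have h2 := f.injective (Subtype.ext h1)
    exact congrArg Subtype.val h2
  have hfl : ∀ ξ, ∃ y : θ → Bool, ξ < Λ.ord → y ∈ S.space ∧ y (e ξ) ≠ x (e ξ) ∧ ∀ γ, γ ≠ e ξ →
      (∀ β ∈ S.supp γ, y β = x β) → y γ = x γ := by
    intro ξ
    by_cases h : ξ < Λ.ord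
    · obtain ⟨y, h1, h2, h3⟩ := S.exists_flip hx (he1 ξ h)
      exact ⟨y, fun _ => ⟨h1, h2, h3⟩⟩
    · exact ⟨x, fun h' => absurd h' h⟩
  choose y hy using hfl
  have hconv := fun γ hγG => S.tendsto_flip hΛ hs x e he2 y (fun ξ h => (hy ξ h).2.2) γ hγG
  -- thresholds for the free coordinates
  have hthr : ∀ γ : (S.free x ∩ G : Set θ), ∃ t : Iio Λ.ord, ∀ ξ, t.1 ≤ ξ → ξ < Λ.ord →
      (γ : θ) ∈ (S.free (y ξ) ∩ G : Set θ) := by
    rintro ⟨γ, hγ, hγG⟩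
    choose! η hη hη2 using hconv
    have h1 : (⨆ β : S.supp γ, η β) < Λ.ord :=
      Ordinal.iSup_lt_of_lt_cof (by rw [hΛ.cof_ord]; exact (hs γ hγG).1) fun β =>
        hη β ((hs γ hγG).2 β.2)
    refine ⟨⟨_, h1⟩, fun ξ h3 h4 => ?_⟩
    have h2 : ∀ β ∈ S.supp γ, y ξ β = x β := fun β hβ =>
      hη2 β ((hs γ hγG).2 hβ) ξ
        (le_trans (Ordinal.le_iSup (fun β : S.supp γ => η β) ⟨β, hβ⟩) h3) h4
    exact ⟨⟨fun h5 => hγ.1 (S.depV γ _ _ h2 h5), fun h5 => hγ.2 (S.depW γ _ _ h2 h5)⟩, hγG⟩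
  choose t ht using hthr
  obtain ⟨a, ha⟩ := Cardinal.infinite_pigeonhole_card
    (fun γ : (S.free x ∩ G : Set θ) => (Ordinal.ToType.mk (t γ) : Λ.ord.ToType)) (Order.succ μ)
    (Order.succ_le_of_lt hfr) (hω.trans (Order.le_succ μ)) (by
      rw [(Cardinal.isRegular_succ hω).cof_ord, Cardinal.mk_toType, Cardinal.card_ord]
      exact lt_of_le_of_lt hμ (Order.lt_succ μ))
  obtain ⟨η₀, hη₀⟩ : ∃ η₀ : Iio Λ.ord, Ordinal.ToType.mk η₀ = a :=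
    ⟨Ordinal.ToType.mk.symm a, by simp⟩
  have hbig : ∀ ξ, η₀.1 ≤ ξ → ξ < Λ.ord → μ < #(S.free (y ξ) ∩ G : Set θ) := by
    intro ξ h1 h2
    refine lt_of_lt_of_le (Order.lt_succ μ) (ha.trans ?_)
    refine Cardinal.mk_le_of_injective
      (f := fun p => (⟨(p.1 : θ), ?_⟩ : (S.free (y ξ) ∩ G : Set θ))) ?_
    · refine ht p.1 ξ (le_trans ?_ h1) h2
      have h3 : Ordinal.ToType.mk (t p.1) = a := p.2
      have h4 : t p.1 = η₀ := Ordinal.ToType.mk.injective (h3.trans hη₀.symm)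
      rw [h4]
    · intro p p' hpp
      exact Subtype.ext (Subtype.ext (congrArg (fun q : (S.free (y ξ) ∩ G : Set θ) => (q : θ)) hpp))
  have hmax : ∀ ξ < Λ.ord, max ξ η₀.1 < Λ.ord := fun ξ h => max_lt h η₀.2
  refine ⟨fun ξ => y (max ξ η₀.1), fun ξ h => ⟨⟨(hy _ (hmax ξ h)).1,
    hbig _ (le_max_right _ _) (hmax ξ h)⟩, fun h1 => ?_⟩, fun γ hγG => ?_⟩
  · exact (hy _ (hmax ξ h)).2.1 (congrFun h1 _)
  · obtain ⟨η, h1, h2⟩ := hconv γ hγG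
    exact ⟨η, h1, fun ξ h3 h4 => h2 _ (h3.trans (le_max_left _ _)) (hmax ξ h4)⟩

end Pool.BC8080
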