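import Mathlib
import Pool.Agent.Lib_MP_bc8080_lc.Conv

/-!
# MP_bc8080_lc: convergent sequences in inverse limits with small supports
-/

set_option autoImplicit false

namespace Pool.BC8080

open Cardinal Filter Set Topology

/-- A convergent sequence in a closed set with `q (k + 1) ≠ q k` contains a non-trivial one. -/
theorem hasConv_of_ne {Y : Type} [TopologicalSpace Y] {X : Set Y} (hX : IsClosed X)
    {q : ℕ → Y} (hq : ∀ k, q k ∈ X) (hne : ∀ k, q (k + 1) ≠ q k) {p : Y}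
    (hp : Tendsto q atTop (𝓝 p)) : HasConv X := by
  have hpX : p ∈ X := hX.mem_of_tendsto hp (Eventually.of_forall hq)
  have hinf : ∀ n, ∃ k, n ≤ k ∧ q k ≠ p := by
    intro n
    by_contra h
    push Not at h
    exact hne n ((h (n + 1) (Nat.le_succ n)).trans (h n le_rfl).symm)
  obtain ⟨φ, hφ, hφ2⟩ := extraction_of_frequently_atTop (P := fun k => q k ≠ p)
    (frequently_atTop.2 fun n => by
      obtain ⟨k, h1, h2⟩ := hinf n
      exact ⟨k, h1, h2⟩)
  exact ⟨q ∘ φ, p, hpX, fun n => ⟨hq _, hφ2 n⟩, hp.comp hφ.tendsto_atTop⟩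

variable {θ : Type} [LinearOrder θ] [WellFoundedLT θ] (S : Sys θ)

theorem Sys.exists_free_or_conv {μ : Cardinal.{0}} (hp : PseudoInt μ) (hinf : S.space.Infinite) :
    HasConv S.space ∨ ∃ x ∈ S.space, μ < #(S.free x) := by
  classical
  by_cases hx : ∃ x ∈ S.space, μ < #(S.free x)
  · exact Or.inr hx
  left
  push Not at hx
  obtain ⟨d⟩ : Nonempty (ℕ ↪ S.space) := by
    have := hinf.to_subtype
    exact ⟨Infinite.natEmbedding _⟩
  have hK : IsCompact S.space := S.isClosed_space.isCompact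
  obtain ⟨x, hxS, hx2⟩ := hK.ultrafilter_le_nhds
    (Ultrafilter.map (fun n => (d n : θ → Bool)) (hyperfilter ℕ)) (by
      rw [le_principal_iff, Ultrafilter.coe_map, Filter.mem_map]
      exact Filter.univ_mem' fun n => (d n).2)
  have hev : ∀ γ, ∀ᶠ n in (hyperfilter ℕ : Filter ℕ), (d n : θ → Bool) γ = x γ := by
    intro γ
    have h1 : {y : θ → Bool | y γ = x γ} ∈ 𝓝 x := by
      refine IsOpen.mem_nhds ?_ rfl
      exact (isOpen_discrete ({x γ} : Set Bool)).preimage
        (continuous_apply γ : Continuous fun y : θ → Bool => y γ)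
    exact hx2 h1
  obtain ⟨P, hP, hP2⟩ := hp ((fun γ => {n | (d n : θ → Bool) γ = x γ}) '' S.free x)
    (Cardinal.mk_image_le.trans (hx x hxS)) (by
      intro t ht
      have h1 : (⋂ s ∈ t, s) ∈ (hyperfilter ℕ : Filter ℕ) := by
        rw [Filter.biInter_finset_mem]
        intro s hs
        obtain ⟨γ, -, rfl⟩ := ht hs
        exact hev γ
      intro h2
      exact (Filter.notMem_hyperfilter_of_finite h2) h1)
  -- the subsequence
  set u : ℕ → θ → Bool := fun n => d (Nat.nth (· ∈ P) n) with hu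
  have hnth : StrictMono (Nat.nth (· ∈ P)) := Nat.nth_strictMono hP
  have hfree : ∀ γ ∈ S.free x, ∀ᶠ n in atTop, u n γ = x γ := by
    intro γ hγ
    have h1 := hP2 _ ⟨γ, hγ, rfl⟩
    have h2 : ∀ᶠ n in atTop, Nat.nth (· ∈ P) n ∉ P \ {n | (d n : θ → Bool) γ = x γ} := by
      have h3 : ∀ᶠ m in (atTop : Filter ℕ), m ∉ P \ {n | (d n : θ → Bool) γ = x γ} := by
        rw [← Nat.cofinite_eq_atTop]
        exact h1.eventually_cofinite_notMem
      exact hnth.tendsto_atTop.eventually h3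
    filter_upwards [h2] with n hn
    have h4 : Nat.nth (· ∈ P) n ∈ P := Nat.nth_mem_of_infinite hP n
    by_contra h5
    exact hn ⟨h4, h5⟩
  have huS : ∀ n, u n ∈ S.space := fun n => (d _).2
  have hconv : Tendsto u atTop (𝓝 x) := by
    rw [tendsto_iff_ultrafilter]
    intro U hU
    obtain ⟨y, hyS, hy⟩ := hK.ultrafilter_le_nhds (Ultrafilter.map u U) (by
      rw [le_principal_iff, Ultrafilter.coe_map, Filter.mem_map]
      exact Filter.univ_mem' fun n => huS n)
    have h1 : y = x := by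
      refine (S.eq_of_free hxS hyS fun γ hγ => ?_).symm
      have h2 : ∀ᶠ n in (U : Filter ℕ), u n γ = x γ := hU (hfree γ hγ)
      have h3 : ∀ᶠ n in (U : Filter ℕ), u n γ = y γ := by
        have h4 : {z : θ → Bool | z γ = y γ} ∈ 𝓝 y := by
          refine IsOpen.mem_nhds ?_ rfl
          exact (isOpen_discrete ({y γ} : Set Bool)).preimage
            (continuous_apply γ : Continuous fun y : θ → Bool => y γ)
        exact hy h4
      obtain ⟨n, h5, h6⟩ := (h2.and h3).exists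
      exact h5.symm.trans h6
    rw [← h1]
    exact hy
  refine hasConv_of_ne S.isClosed_space huS (fun k h => ?_) hconv
  have h1 := d.injective (Subtype.ext h)
  exact absurd (hnth.injective h1) (Nat.succ_ne_self k)

/-- The main theorem for `κ` coordinates. -/
theorem Sys.hasConv {lam : ℕ → Cardinal.{0}} {κ : Cardinal.{0}} (hreg : ∀ n, (lam n).IsRegular)
    (hmono : StrictMono lam) (hD : Dir lam κ) (hp : PseudoInt (⨆ n, lam n)) (hθ : #θ ≤ κ)
    (r : θ → ℕ) (hr : ∀ α, #(S.supp α) < lam (r α) ∧ ∀ β ∈ S.supp α, r β ≤ r α)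
    (hinf : S.space.Infinite) : HasConv S.space := by
  classical
  rcases S.exists_free_or_conv hp hinf with h | ⟨x₀, hx₀, hfr⟩
  · exact h
  have hle : ∀ n, lam n ≤ ⨆ n, lam n := fun n => le_ciSup Cardinal.bddAbove_of_small n
  have hω : ℵ₀ ≤ ⨆ n, lam n := (hreg 0).aleph0_le.trans (hle 0)
  have hθi : Infinite θ := by
    by_contra h
    rw [not_infinite_iff_finite] at h
    exact hinf (Set.toFinite _)
  have hI : #(θ × Bool) ≤ κ := by
    refine le_trans ?_ hθ
    have : #(θ × Bool) = #θ * #Bool := by simp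
    rw [this]
    refine (Cardinal.mul_le_max_of_aleph0_le_left (Cardinal.aleph0_le_mk θ)).trans ?_
    refine max_le le_rfl ((Cardinal.mk_le_aleph0).trans (Cardinal.aleph0_le_mk θ))
  let G : ℕ → Set θ := fun k => {γ | r γ ≤ k}
  have hGmono : ∀ k l, k ≤ l → G k ⊆ G l := fun k l hkl γ hγ => le_trans hγ hkl
  obtain ⟨k₀, hk₀⟩ : ∃ k₀, (⨆ n, lam n) < #(S.free x₀ ∩ G k₀ : Set θ) := by
    by_contra h
    push Not at h
    have h1 : S.free x₀ = ⋃ k, (S.free x₀ ∩ G k) := by
      ext γ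
      simp only [mem_iUnion, mem_inter_iff]
      exact ⟨fun h => ⟨r γ, h, le_refl (r γ)⟩, fun ⟨_, h, _⟩ => h⟩
    rw [h1] at hfr
    refine absurd hfr (not_lt.2 ?_)
    refine (Cardinal.mk_iUnion_le _).trans ?_
    refine (mul_le_mul' (Cardinal.mk_le_aleph0.trans hω) (ciSup_le' h)).trans ?_
    rw [Cardinal.mul_eq_self hω]
  have hGs : ∀ k, ∀ α ∈ G k, #(S.supp α) < lam k ∧ S.supp α ⊆ G k := fun k α hα =>
    ⟨lt_of_lt_of_le (hr α).1 (hmono.monotone hα), fun β hβ => le_trans ((hr α).2 β hβ) hα⟩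
  have hφ : StrictMono fun k : ℕ => k + k₀ := fun a b h => Nat.add_lt_add_right h k₀
  obtain ⟨q, hqT, hqne, hq⟩ := fusion (X := θ → Bool) (lam := lam ∘ fun k => k + k₀)
    (fun n => hreg _) (hmono.comp hφ) (hD.comp hreg hφ) hI
    (fun k => {i | i.1 ∈ G (k + k₀)}) (fun i => {x | x i.1 = i.2})
    (fun k => {x | x ∈ S.space ∧ (⨆ n, lam n) < #(S.free x ∩ G (k + k₀) : Set θ)}) x₀
    ⟨hx₀, by rw [Nat.zero_add]; exact hk₀⟩ (by
      intro k x hx
      obtain ⟨y, h1, h2⟩ := S.exists_long (hreg (k + k₀)) (hGs (k + k₀)) (hle _) hx.1 hx.2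
      refine ⟨y, fun ξ hξ => ⟨⟨(h1 ξ hξ).1.1, lt_of_lt_of_le (h1 ξ hξ).1.2
        (Cardinal.mk_le_mk_of_subset (inter_subset_inter_right _ (hGmono _ _ (by omega))))⟩,
        (h1 ξ hξ).2⟩, fun i hiJ hi => ?_⟩
      obtain ⟨η, h3, h4⟩ := h2 i.1 hiJ
      exact ⟨η, h3, fun ξ h5 h6 => (h4 ξ h5 h6).trans hi⟩)
  have hJ : ∀ i : θ × Bool, ∀ᶠ k in atTop, i ∈ {i : θ × Bool | i.1 ∈ G (k + k₀)} := by
    intro i
    filter_upwards [eventually_ge_atTop (r i.1)] with k hk
    exact le_trans hk (Nat.le_add_right k k₀)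
  have hst : ∀ γ, ∃ b : Bool, ∀ᶠ k in atTop, q k γ = b := by
    intro γ
    have h1 : ∀ᶠ k in atTop, q (k + 1) γ = q k γ := by
      filter_upwards [hq (γ, true) (hJ _), hq (γ, false) (hJ _)] with k h2 h3
      cases h4 : q k γ
      · exact h3 h4
      · exact h2 h4
    obtain ⟨N, hN⟩ := eventually_atTop.1 h1
    refine ⟨q N γ, eventually_atTop.2 ⟨N, fun k hk => ?_⟩⟩
    induction k, hk using Nat.le_induction with
    | base => rfl
    | succ k hk ih => rw [hN k hk, ih]
  choose p hp' using hst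
  have hconv : Tendsto q atTop (𝓝 p) := by
    rw [tendsto_pi_nhds]
    intro γ
    refine (tendsto_congr' (hp' γ)).2 tendsto_const_nhds
  exact hasConv_of_ne S.isClosed_space (fun k => (hqT k).1) hqne hconv

end Pool.BC8080
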