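import Mathlib
import Pool.Agent.Lib_MP_bc8080_lc.Sys

/-!
# MP_bc8080_lc: the cardinals
-/

set_option autoImplicit false

namespace Pool.BC8080

open Cardinal Filter Set Topology

/-- The bounding number of the product of the cardinals `lam n` modulo finite sets: the least size
of a family of functions `f` with `f n < lam n` for all `n` (ordinals) which is not dominated
modulo finite sets by a single such function. -/
noncomputable def bProd (lam : ℕ → Cardinal.{0}) : Cardinal.{0} :=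
  sInf {κ | ∃ (I : Type) (F : I → ℕ → Ordinal.{0}), #I = κ ∧ (∀ i n, F i n < (lam n).ord) ∧
    ¬ ∃ g : ℕ → Ordinal.{0}, (∀ n, g n < (lam n).ord) ∧ ∀ i, ∀ᶠ n in atTop, F i n ≤ g n}

/-- The pseudo-intersection number. -/
noncomputable def pNum : Cardinal.{0} :=
  sInf {κ | ∃ F : Set (Set ℕ), #F = κ ∧
    (∀ t : Finset (Set ℕ), (t : Set (Set ℕ)) ⊆ F → (⋂ s ∈ t, s).Infinite) ∧
    ¬ ∃ P : Set ℕ, P.Infinite ∧ ∀ s ∈ F, (P \ s).Finite}

/-- The splitting number of the reals. -/
noncomputable def sR : Cardinal.{0} :=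
  sInf {κ | ∃ F : Set (Set ℝ), #F = κ ∧ (∀ U ∈ F, IsOpen U) ∧
    ∀ A : Set ℝ, A.Infinite → ∃ U ∈ F, (A ∩ U).Infinite ∧ (A \ U).Infinite}

/-- The weight of a topological space. -/
noncomputable def weight (X : Type) [TopologicalSpace X] : Cardinal.{0} :=
  sInf {κ | ∃ B : Set (Set X), #B = κ ∧ TopologicalSpace.IsTopologicalBasis B}

theorem exists_basis_weight (X : Type) [TopologicalSpace X] :
    ∃ B : Set (Set X), #B = weight X ∧ TopologicalSpace.IsTopologicalBasis B :=
  csInf_mem (s := {κ | ∃ B : Set (Set X), #B = κ ∧ TopologicalSpace.IsTopologicalBasis B})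
    ⟨_, {s | IsOpen s}, rfl, TopologicalSpace.isTopologicalBasis_opens⟩

theorem dir_of_lt {lam : ℕ → Cardinal.{0}} {κ : Cardinal.{0}} (h : κ < bProd lam) :
    Dir lam κ := by
  intro I F hI hF
  by_contra hg
  exact absurd (csInf_le' (s := {κ | ∃ (I : Type) (F : I → ℕ → Ordinal.{0}), #I = κ ∧
    (∀ i n, F i n < (lam n).ord) ∧ ¬ ∃ g : ℕ → Ordinal.{0}, (∀ n, g n < (lam n).ord) ∧
    ∀ i, ∀ᶠ n in atTop, F i n ≤ g n}) ⟨I, F, rfl, hF, hg⟩) (not_le.2 (lt_of_le_of_lt hI h))

theorem pseudoInt_of_lt {μ : Cardinal.{0}} (h : μ < pNum) : PseudoInt μ := by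
  intro F hF hfin
  by_contra hP
  exact absurd (csInf_le' (s := {κ | ∃ F : Set (Set ℕ), #F = κ ∧
    (∀ t : Finset (Set ℕ), (t : Set (Set ℕ)) ⊆ F → (⋂ s ∈ t, s).Infinite) ∧
    ¬ ∃ P : Set ℕ, P.Infinite ∧ ∀ s ∈ F, (P \ s).Finite}) ⟨F, rfl, hfin, hP⟩)
    (not_le.2 (lt_of_le_of_lt hF h))

/-- Families of size at most the supremum of the cardinals are always bounded. -/
theorem dir_iSup {lam : ℕ → Cardinal.{0}} (hreg : ∀ n, (lam n).IsRegular)
    (hmono : StrictMono lam) : Dir lam (⨆ n, lam n) := by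
  classical
  intro I F hI hF
  have hI' : #I ≤ #((⨆ n, lam n).ord.ToType) := by
    rw [Cardinal.mk_toType, Cardinal.card_ord]
    exact hI
  obtain ⟨e⟩ := Cardinal.le_def _ _ |>.1 hI'
  let E : I → Ordinal.{0} := fun i => (Ordinal.ToType.mk.symm (e i)).1
  have hE : Function.Injective E := fun i j h =>
    e.injective (Ordinal.ToType.mk.symm.injective (Subtype.ext h))
  have hElt : ∀ i, E i < (⨆ n, lam n).ord := fun i => (Ordinal.ToType.mk.symm (e i)).2
  let J : ℕ → Set I := fun n => {i | E i < (lam n).ord}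
  have hJcard : ∀ n, #(J n) ≤ lam n := by
    intro n
    have h1 : Cardinal.lift.{1} #(J n) ≤ Cardinal.lift.{1} (lam n) := by
      have h2 : #(Iio (lam n).ord) = Cardinal.lift.{1} (lam n) := by
        rw [Cardinal.mk_Iio_ordinal, Cardinal.card_ord]
      rw [← h2, ← Cardinal.lift_id'.{0, 1} #(Iio (lam n).ord)]
      refine Cardinal.lift_mk_le_lift_mk_of_injective
        (f := fun i : J n => (⟨E i.1, i.2⟩ : Iio (lam n).ord)) ?_
      intro i j h
      have h3 : E i.1 = E j.1 := congrArg (fun q : Iio (lam n).ord => q.1) h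
      exact Subtype.ext (hE h3)
    exact Cardinal.lift_le.1 h1
  refine ⟨fun n => ⨆ i : J (n - 1), if 0 < n then F i n else 0, fun n => ?_, fun i => ?_⟩
  · rcases Nat.eq_zero_or_pos n with h | h
    · have h1 : (⨆ i : J (n - 1), if 0 < n then F i n else 0) ≤ (0 : Ordinal) := by
        refine Ordinal.iSup_le fun i => ?_
        rw [if_neg (by omega)]
      exact lt_of_le_of_lt h1 (hreg n).ord_pos
    · refine Ordinal.iSup_lt_of_lt_cof ?_ fun i => ?_
      · rw [(hreg n).cof_ord]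
        exact lt_of_le_of_lt (hJcard _) (hmono (by omega))
      · rw [if_pos h]
        exact hF i n
  · obtain ⟨m, hm⟩ : ∃ m, E i < (lam m).ord := by
      have h1 := hElt i
      rw [Cardinal.lt_ord] at h1
      obtain ⟨m, hm⟩ := exists_lt_of_lt_ciSup h1
      exact ⟨m, Cardinal.lt_ord.2 hm⟩
    filter_upwards [eventually_gt_atTop m] with n hn
    have h2 : i ∈ J (n - 1) := lt_of_lt_of_le hm
      (Cardinal.ord_le_ord.2 (hmono.monotone (by omega)))
    refine le_trans (le_of_eq ?_) (Ordinal.le_iSup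
      (fun i : J (n - 1) => if 0 < n then F i n else 0) ⟨i, h2⟩)
    exact (if_pos (by omega)).symm

theorem iSup_lt_bProd {lam : ℕ → Cardinal.{0}} (hreg : ∀ n, (lam n).IsRegular)
    (hmono : StrictMono lam) (h0 : bProd lam ≠ 0) : (⨆ n, lam n) < bProd lam := by
  have hne : {κ | ∃ (I : Type) (F : I → ℕ → Ordinal.{0}), #I = κ ∧
      (∀ i n, F i n < (lam n).ord) ∧ ¬ ∃ g : ℕ → Ordinal.{0}, (∀ n, g n < (lam n).ord) ∧
      ∀ i, ∀ᶠ n in atTop, F i n ≤ g n}.Nonempty := by
    by_contra h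
    rw [not_nonempty_iff_eq_empty] at h
    exact h0 (by rw [bProd, h, Cardinal.sInf_empty])
  obtain ⟨I, F, hI, hF, hg⟩ := csInf_mem hne
  by_contra h
  exact hg (dir_iSup hreg hmono I F (by rw [hI]; exact not_lt.1 h) hF)

end Pool.BC8080
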