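import Mathlib
import Pool.Agent.Lib_MP_bc8080_lc.CType

/-!
# MP_bc8080_lc: from the number of coordinates to the weight
-/

set_option autoImplicit false

namespace Pool.BC8080

open Cardinal Filter Set Topology

section restrict

variable {θ : Type} [LinearOrder θ] (S : Sys θ) (A : Set θ)

open scoped Classical in
/-- Extension by `false`. -/
private noncomputable def ext0 (x : A → Bool) : θ → Bool := fun β => if h : β ∈ A then x ⟨β, h⟩ else false

omit [LinearOrder θ] in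
private theorem continuous_ext0 : Continuous (ext0 A) := by
  classical
  refine continuous_pi fun β => ?_
  by_cases h : β ∈ A
  · have : (fun x : A → Bool => ext0 A x β) = fun x => x ⟨β, h⟩ := by
      funext x
      exact dif_pos h
    rw [this]
    exact continuous_apply _
  · have : (fun x : A → Bool => ext0 A x β) = fun _ => false := by
      funext x
      exact dif_neg h
    rw [this]
    exact continuous_const

omit [LinearOrder θ] in
private theorem ext0_agree (x y : A → Bool) {s : Set θ} (hs : s ⊆ A)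
    (h : ∀ β : A, (β : θ) ∈ s → x β = y β) : ∀ β ∈ s, ext0 A x β = ext0 A y β := by
  intro β hβ
  have h1 : ext0 A x β = x ⟨β, hs hβ⟩ := dif_pos (hs hβ)
  have h2 : ext0 A y β = y ⟨β, hs hβ⟩ := dif_pos (hs hβ)
  rw [h1, h2]
  exact h ⟨β, hs hβ⟩ hβ

/-- An extension of a point of the restricted system. -/
private theorem exists_ext [WellFoundedLT θ] (hA : ∀ α ∈ A, S.supp α ⊆ A) (x : A → Bool)
    (I : Set θ) (hI : ∀ γ ∈ I, ∀ β < γ, β ∈ I)
    (hx : ∀ b : A, (b : θ) ∈ I → OkAt (fun α : A => ext0 A ⁻¹' S.V α)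
      (fun α : A => ext0 A ⁻¹' S.W α) x b) :
    ∃ y : θ → Bool, (∀ b : A, y b = x b) ∧ ∀ γ ∈ I, OkAt S.V S.W y γ := by
  classical
  obtain ⟨y, hy⟩ := S.exists_rec A (ext0 A x)
  have hyA : ∀ β ∈ A, y β = ext0 A x β := fun β hβ => by rw [hy β, if_pos hβ]
  have hyx : ∀ b : A, y b = x b := fun b => by
    rw [hyA b b.2]
    exact dif_pos b.2
  refine ⟨y, hyx, fun γ hγ => ?_⟩
  have key : ∀ δ ∈ I, OkAt S.V S.W y δ ∨
      (y ∈ S.V δ ∧ y δ = true) ∨ (y ∉ S.V δ ∧ y ∈ S.W δ ∧ y δ = false) ∨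
      (y ∉ S.V δ ∧ y ∉ S.W δ ∧ y δ = ext0 A x δ) := by
    intro δ hδ
    by_cases h : δ ∈ A
    · left
      have h1 : ∀ β ∈ S.supp δ, y β = ext0 A x β := fun β hβ => hyA β (hA δ h hβ)
      have h2 : y δ = x ⟨δ, h⟩ := hyx ⟨δ, h⟩
      have h3 := hx ⟨δ, h⟩ hδ
      unfold OkAt
      rw [h2]
      exact ⟨fun h4 => h3.1 (S.depV δ _ _ h1 h4), fun h4 => h3.2 (S.depW δ _ _ h1 h4)⟩
    · right
      exact S.rule_of_rec (P := A) (d := ext0 A x) (y := y) h (hy δ)
  have h1 := S.mem_space_of_rule (y := y) (ext0 A x) γ fun δ hδ _ => key δ (hI γ hγ δ hδ)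
  rcases key γ hγ with h | ⟨h2, h3⟩ | ⟨h2, h3, h4⟩ | ⟨h2, h3, h4⟩
  · exact h
  · exact ⟨fun _ => h3, fun h5 => absurd h5 (S.disj γ y h1 h2)⟩
  · exact ⟨fun h5 => absurd h5 h2, fun _ => h4⟩
  · exact ⟨fun h5 => absurd h5 h2, fun h5 => absurd h5 h3⟩

/-- The restriction of a system to a set of coordinates which is closed under supports. -/
noncomputable def Sys.restrict [WellFoundedLT θ] (hA : ∀ α ∈ A, S.supp α ⊆ A) : Sys A where
  supp α := {β | (β : θ) ∈ S.supp α}
  V α := ext0 A ⁻¹' S.V α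
  W α := ext0 A ⁻¹' S.W α
  supp_lt α β hβ := S.supp_lt α β hβ
  openV α := (S.openV α).preimage (continuous_ext0 A)
  openW α := (S.openW α).preimage (continuous_ext0 A)
  depV α x y h hx := S.depV α _ _ (ext0_agree A x y (hA α α.2) fun β hβ => h β hβ) hx
  depW α x y h hx := S.depW α _ _ (ext0_agree A x y (hA α α.2) fun β hβ => h β hβ) hx
  disj α x hx h1 h2 := by
    obtain ⟨y, hyx, hy⟩ := exists_ext S A hA x (Iio (α : θ)) (fun γ hγ β hβ => hβ.trans hγ)
      fun b hb => hx b hb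
    have h3 : ∀ β ∈ S.supp (α : θ), ext0 A x β = y β := by
      intro β hβ
      have h4 : β ∈ A := hA α α.2 hβ
      rw [hyx ⟨β, h4⟩]
      exact dif_pos h4
    exact S.disj α y (fun β hβ => hy β hβ) (S.depV α _ _ h3 h1) (S.depW α _ _ h3 h2)

omit [LinearOrder θ] in
private theorem ext0_restr (x : θ → Bool) {β : θ} (hβ : β ∈ A) :
    ext0 A (fun b : A => x b) β = x β := dif_pos hβ

theorem Sys.restrict_mem [WellFoundedLT θ] (hA : ∀ α ∈ A, S.supp α ⊆ A) {x : θ → Bool}
    (hx : x ∈ S.space) : (fun b : A => x b) ∈ (S.restrict A hA).space := by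
  intro α
  have h1 : ∀ β ∈ S.supp α, ext0 A (fun b : A => x b) β = x β := fun β hβ =>
    ext0_restr A x (hA α α.2 hβ)
  exact ⟨fun h => (hx α).1 (S.depV α _ _ h1 h), fun h => (hx α).2 (S.depW α _ _ h1 h)⟩

theorem Sys.restrict_surj [WellFoundedLT θ] (hA : ∀ α ∈ A, S.supp α ⊆ A) {x : A → Bool}
    (hx : x ∈ (S.restrict A hA).space) : ∃ y ∈ S.space, (fun b : A => y b) = x := by
  obtain ⟨y, hyx, hy⟩ := exists_ext S A hA x Set.univ (fun _ _ _ _ => trivial)
    fun b _ => hx b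
  exact ⟨y, fun γ => hy γ trivial, funext hyx⟩

end restrict

/-- Closure of a set of coordinates under supports. -/
theorem Sys.exists_closure {θ : Type} [LinearOrder θ] (S : Sys θ) {κ : Cardinal.{0}}
    (hκ : ℵ₀ ≤ κ) (hs : ∀ α, #(S.supp α) ≤ κ) (A₀ : Set θ) (hA₀ : #A₀ ≤ κ) :
    ∃ A : Set θ, A₀ ⊆ A ∧ (∀ α ∈ A, S.supp α ⊆ A) ∧ #A ≤ κ := by
  let L : ℕ → Set θ := fun n => Nat.rec A₀ (fun _ B => B ∪ ⋃ α ∈ B, S.supp α) n
  have hLs : ∀ n, L (n + 1) = L n ∪ ⋃ α ∈ L n, S.supp α := fun _ => rfl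
  have hL : ∀ n, Cardinal.mk ↥(L n) ≤ κ := by
    intro n
    induction n with
    | zero => exact hA₀
    | succ n ih =>
      rw [hLs]
      refine (Cardinal.mk_union_le _ _).trans (Cardinal.add_le_of_le hκ ih ?_)
      refine (Cardinal.mk_biUnion_le _ _).trans ?_
      have h1 : ∀ x : ↥(L n), Cardinal.mk ↥(S.supp x.1) ≤ κ := fun α => hs α.1
      exact (mul_le_mul' ih (ciSup_le' h1)).trans (Cardinal.mul_eq_self hκ).le
  refine ⟨⋃ n, L n, fun α hα => Set.mem_iUnion.2 ⟨0, hα⟩, ?_, ?_⟩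
  · intro α hα β hβ
    obtain ⟨n, hn⟩ := Set.mem_iUnion.1 hα
    refine Set.mem_iUnion.2 ⟨n + 1, ?_⟩
    rw [hLs]
    exact Or.inr (Set.mem_biUnion hn hβ)
  · refine (Cardinal.mk_iUnion_le _).trans ?_
    refine (mul_le_mul' (Cardinal.mk_le_aleph0.trans hκ) (ciSup_le' hL)).trans ?_
    rw [Cardinal.mul_eq_self hκ]

/-- A space has a non-trivial convergent sequence. -/
def SeqConv (X : Type) [TopologicalSpace X] : Prop :=
  ∃ (u : ℕ → X) (p : X), (∀ n, u n ≠ p) ∧ Tendsto u atTop (𝓝 p)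

theorem Sys.seqConv_of_base {lam : ℕ → Cardinal.{0}} {κ : Cardinal.{0}}
    (hreg : ∀ n, (lam n).IsRegular) (hmono : StrictMono lam) (hD : Dir lam κ)
    (hp : PseudoInt (⨆ n, lam n)) (hκ : ∀ n, lam n ≤ κ) {θ : Type} [LinearOrder θ]
    [WellFoundedLT θ] (S : Sys θ) (r : θ → ℕ)
    (hr : ∀ α, #(S.supp α) < lam (r α) ∧ ∀ β ∈ S.supp α, r β ≤ r α)
    {X : Type} [TopologicalSpace X] [Infinite X]
    (e : X ≃ₜ S.space) {B : Set (Set X)} (hB : TopologicalSpace.IsTopologicalBasis B) (hBκ : #B ≤ κ) :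
    SeqConv X := by
  classical
  have hκω : ℵ₀ ≤ κ := (hreg 0).aleph0_le.trans (hκ 0)
  have hθ : Nonempty θ := by
    by_contra h
    rw [not_nonempty_iff] at h
    have h1 : Finite S.space := by infer_instance
    exact not_finite_iff_infinite.2 ‹Infinite X› (Finite.of_equiv _ e.symm.toEquiv)
  -- separating coordinates
  let G : B × B → θ := fun p => if h : ∃ γ, ∀ x ∈ p.1.1, ∀ y ∈ p.2.1,
    (e x : θ → Bool) γ ≠ (e y : θ → Bool) γ then h.choose else hθ.some
  have hG : #(Set.range G) ≤ κ := by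
    refine Cardinal.mk_range_le.trans ?_
    rw [Cardinal.mk_prod, Cardinal.lift_id]
    exact (mul_le_mul' hBκ hBκ).trans (Cardinal.mul_eq_self hκω).le
  obtain ⟨A, hA0, hA, hAκ⟩ := S.exists_closure hκω (fun α => (hr α).1.le.trans (hκ _)) _ hG
  have hcomp : CompactSpace S.space := isCompact_iff_compactSpace.1 S.isClosed_space.isCompact
  have hcX : CompactSpace X := e.symm.compactSpace
  let f : X → (S.restrict A hA).space := fun x =>
    ⟨fun b : A => (e x : θ → Bool) b, S.restrict_mem A hA (e x).2⟩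
  have hf : Continuous f := by
    refine Continuous.subtype_mk (continuous_pi fun b => ?_) _
    exact (continuous_apply (b : θ)).comp (continuous_subtype_val.comp e.continuous)
  have hfi : Function.Injective f := by
    intro x y hxy
    by_contra hne
    have h1 : (e x : θ → Bool) ≠ e y := fun h => hne (e.injective (Subtype.ext h))
    obtain ⟨γ, hγ⟩ := Function.ne_iff.1 h1
    have hopen : ∀ b : Bool, IsOpen {z : X | (e z : θ → Bool) γ = b} := fun b =>
      (isOpen_discrete ({b} : Set Bool)).preimage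
        ((continuous_apply γ).comp (continuous_subtype_val.comp e.continuous) :
          Continuous fun z : X => (e z : θ → Bool) γ)
    obtain ⟨b1, hb1, hx1, hb1'⟩ := hB.exists_subset_of_mem_open
      (show x ∈ {z : X | (e z : θ → Bool) γ = (e x : θ → Bool) γ} from rfl) (hopen _)
    obtain ⟨b2, hb2, hy2, hb2'⟩ := hB.exists_subset_of_mem_open
      (show y ∈ {z : X | (e z : θ → Bool) γ = (e y : θ → Bool) γ} from rfl) (hopen _)
    have h2 : ∃ γ, ∀ x ∈ b1, ∀ y ∈ b2, (e x : θ → Bool) γ ≠ (e y : θ → Bool) γ := by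
      refine ⟨γ, fun z hz w hw => ?_⟩
      have e1 : (e z : θ → Bool) γ = (e x : θ → Bool) γ := hb1' hz
      have e2 : (e w : θ → Bool) γ = (e y : θ → Bool) γ := hb2' hw
      rw [e1, e2]
      exact hγ
    have h3 : G (⟨b1, hb1⟩, ⟨b2, hb2⟩) = h2.choose := dif_pos h2
    have h4 : h2.choose ∈ A := hA0 ⟨_, h3⟩
    have h5 := congrFun (congrArg Subtype.val hxy) ⟨h2.choose, h4⟩
    exact h2.choose_spec x hx1 y hy2 h5
  have hfs : Function.Surjective f := by
    rintro ⟨x', hx'⟩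
    obtain ⟨y, hy, hyx⟩ := S.restrict_surj A hA hx'
    refine ⟨e.symm ⟨y, hy⟩, Subtype.ext ?_⟩
    show (fun b : A => (e (e.symm ⟨y, hy⟩) : θ → Bool) b) = x'
    rw [e.apply_symm_apply]
    exact hyx
  let g := Continuous.homeoOfEquivCompactToT2 (f := Equiv.ofBijective f ⟨hfi, hfs⟩) hf
  have hinf : (S.restrict A hA).space.Infinite := by
    rw [← Set.infinite_coe_iff]
    exact Infinite.of_injective f hfi
  obtain ⟨u, p, hp1, hu, hconv⟩ := (S.restrict A hA).hasConv hreg hmono hD hp hAκ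
    (fun α => r α) (fun α => by
    refine ⟨lt_of_le_of_lt ?_ (hr α).1, fun β hβ => (hr α).2 β hβ⟩
    exact Cardinal.mk_le_of_injective (f := fun β => (⟨β.1.1, β.2⟩ : S.supp α))
      fun β β' h => Subtype.ext (Subtype.ext (congrArg (fun q : S.supp α => (q : θ)) h))) hinf
  refine ⟨fun n => g.symm ⟨u n, (hu n).1⟩, g.symm ⟨p, hp1⟩, fun n h => ?_, ?_⟩
  · exact (hu n).2 (congrArg Subtype.val (g.symm.injective h))
  · refine (g.symm.continuous.tendsto _).comp ?_
    rw [tendsto_subtype_rng]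
    exact hconv

end Pool.BC8080
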