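import Mathlib
import Pool.Agent.Lib_MP_bc8080_lc.Weight
import Pool.Agent.Lib_MP_bc8080_lc.Card

/-!
# MP_bc8080_lc: closed subspaces without long convergent sequences
-/

set_option autoImplicit false

namespace Pool.BC8080

open Cardinal Filter Set Topology

/-- The set `Y` contains a non-trivial convergent sequence of length `Λ`. -/
def HasLong {X : Type} [TopologicalSpace X] (Λ : Cardinal.{0}) (Y : Set X) : Prop :=
  ∃ (y : Ordinal.{0} → X) (p : X), p ∈ Y ∧ (∀ ξ < Λ.ord, y ξ ∈ Y ∧ y ξ ≠ p) ∧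
    ∀ U ∈ 𝓝 p, ∃ η < Λ.ord, ∀ ξ, η ≤ ξ → ξ < Λ.ord → y ξ ∈ U

variable {X : Type} [TopologicalSpace X]

theorem HasLong.mono {Λ : Cardinal.{0}} {Y Z : Set X} (h : HasLong Λ Y) (hYZ : Y ⊆ Z) :
    HasLong Λ Z := by
  obtain ⟨y, p, hp, hy, hU⟩ := h
  exact ⟨y, p, hYZ hp, fun ξ hξ => ⟨hYZ (hy ξ hξ).1, (hy ξ hξ).2⟩, hU⟩

/-- The limits of the non-trivial convergent sequences of length `Λ` in `Y`. -/
def LimPt (Λ : Cardinal.{0}) (Y : Set X) : Set X :=
  {x | ∃ y : Ordinal.{0} → X, (∀ ξ < Λ.ord, y ξ ∈ Y ∧ y ξ ≠ x) ∧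
    ∀ U ∈ 𝓝 x, ∃ η < Λ.ord, ∀ ξ, η ≤ ξ → ξ < Λ.ord → y ξ ∈ U}

/-- In a compact space without convergent sequences a decreasing sequence of infinite closed sets
has an infinite intersection. -/
theorem iInter_infinite [CompactSpace X] [T2Space X] (hX : ¬ SeqConv X) {F : ℕ → Set X}
    (hF : Antitone F) (hc : ∀ n, IsClosed (F n)) (hi : ∀ n, (F n).Infinite) :
    (⋂ n, F n).Infinite := by
  intro hfin
  apply hX
  have hex : ∀ n, ∃ x ∈ F n, x ∉ ⋂ n, F n := by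
    intro n
    by_contra h
    push Not at h
    exact hi n (hfin.subset fun x hx => h x hx)
  choose u hu huK using hex
  have hcl : ∀ {v : ℕ → X}, (∀ n, v n ∈ F n) → ∀ x, MapClusterPt x atTop v →
      x ∈ ⋂ n, F n := by
    intro v hv x hx
    refine mem_iInter.2 fun n => (hc n).mem_of_mapClusterPt hx ?_
    filter_upwards [eventually_ge_atTop n] with m hm using hF hm (hv m)
  obtain ⟨p, hp⟩ : ∃ p, MapClusterPt p atTop u := exists_clusterPt_of_compactSpace _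
  have hpK := hcl hu p hp
  have h1 : ((⋂ n, F n) \ {p})ᶜ ∈ 𝓝 p :=
    (hfin.subset sdiff_subset).isClosed.isOpen_compl.mem_nhds fun h => h.2 rfl
  obtain ⟨U, hU, hUc, hUs⟩ := exists_mem_nhds_isClosed_subset h1
  obtain ⟨φ, hφ, hφU⟩ := extraction_of_frequently_atTop (mapClusterPt_iff_frequently.1 hp U hU)
  refine ⟨u ∘ φ, p, fun n h => huK (φ n) (by rw [show u (φ n) = p from h]; exact hpK), ?_⟩
  refine tendsto_nhds_of_unique_mapClusterPt fun x hx => ?_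
  have h2 : x ∈ ⋂ n, F n := hcl (fun n => hF (hφ.id_le n) (hu (φ n))) x hx
  have h3 : x ∈ U := hUc.mem_of_mapClusterPt hx (Eventually.of_forall hφU)
  by_contra h4
  exact hUs h3 ⟨h2, h4⟩

/-- The tails of a long convergent sequence leave some neighbourhood of the limit infinitely
often. -/
theorem exists_nhds_infinite [T2Space X] (hX : ¬ SeqConv X) {Λ : Cardinal.{0}} {x : X}
    {y : Ordinal.{0} → X} (hy : ∀ ξ < Λ.ord, y ξ ≠ x)
    (hyx : ∀ U ∈ 𝓝 x, ∃ η < Λ.ord, ∀ ξ, η ≤ ξ → ξ < Λ.ord → y ξ ∈ U) {ξ : Ordinal.{0}}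
    (hξ : ξ < Λ.ord) : ∃ U, IsOpen U ∧ x ∈ U ∧ (y '' Ico ξ Λ.ord \ U).Infinite := by
  classical
  have hinf : (y '' Ico ξ Λ.ord).Infinite := by
    intro hfin
    have h1 : (y '' Ico ξ Λ.ord)ᶜ ∈ 𝓝 x := by
      refine hfin.isClosed.isOpen_compl.mem_nhds ?_
      rintro ⟨η, hη, h⟩
      exact hy η hη.2 h
    obtain ⟨η, hη, h2⟩ := hyx _ h1
    exact h2 (max η ξ) (le_max_left _ _) (max_lt hη hξ)
      ⟨max η ξ, ⟨le_max_right _ _, max_lt hη hξ⟩, rfl⟩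
  by_contra h
  push Not at h
  have := hinf.to_subtype
  let u := Infinite.natEmbedding (y '' Ico ξ Λ.ord)
  refine hX ⟨fun n => u n, x, fun n => ?_, ?_⟩
  · obtain ⟨η, hη, h1⟩ := (u n).2
    have h2 : ((u n : y '' Ico ξ Λ.ord) : X) ≠ x := by
      rw [← h1]
      exact hy η hη.2
    exact h2
  · rw [tendsto_nhds]
    intro U hU hx
    have h1 := h U hU hx
    rw [← Nat.cofinite_eq_atTop, mem_cofinite]
    have h2 : ((fun n => ((u n : y '' Ico ξ Λ.ord) : X)) ⁻¹' U)ᶜ =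
        (fun n => ((u n : y '' Ico ξ Λ.ord) : X)) ⁻¹' (y '' Ico ξ Λ.ord \ U) := by
      ext n
      simp only [mem_compl_iff, mem_preimage, Set.mem_sdiff]
      exact ⟨fun h3 => ⟨(u n).2, h3⟩, fun h3 => h3.2⟩
    rw [h2]
    exact h1.preimage fun n _ m _ hnm => u.injective (Subtype.ext hnm)

/-- One step of the tree. -/
theorem long_step [CompactSpace X] [T2Space X] (hX : ¬ SeqConv X) {Λ Λ' : Cardinal.{0}}
    {Y : Set X} (hY : IsClosed Y)
    (hL : ∀ Z, IsClosed Z → Z.Infinite → Z ⊆ Y → HasLong Λ' Z) {x : X} (hx : x ∈ LimPt Λ Y) :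
    ∃ z : Ordinal.{0} → X, (∀ ξ < Λ.ord, z ξ ∈ LimPt Λ' Y ∧ z ξ ≠ x) ∧
      ∀ U ∈ 𝓝 x, ∃ η < Λ.ord, ∀ ξ, η ≤ ξ → ξ < Λ.ord → z ξ ∈ U := by
  classical
  obtain ⟨y, hy, hyx⟩ := hx
  have hex : ∀ ξ, ∃ z : X, ξ < Λ.ord → z ∈ LimPt Λ' Y ∧ z ≠ x ∧
      z ∈ closure (y '' Ico ξ Λ.ord) := by
    intro ξ
    by_cases hξ : ξ < Λ.ord
    · obtain ⟨U, hU, hxU, hinf⟩ := exists_nhds_infinite hX (fun ξ h => (hy ξ h).2) hyx hξ
      have hs : closure (y '' Ico ξ Λ.ord \ U) ⊆ Y := by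
        refine closure_minimal ?_ hY
        rintro _ ⟨⟨η, hη, rfl⟩, -⟩
        exact (hy η hη.2).1
      obtain ⟨w, p, hp, hw, hwp⟩ := hL _ isClosed_closure (hinf.mono subset_closure) hs
      refine ⟨p, fun _ => ⟨⟨w, fun η hη => ⟨hs (hw η hη).1, (hw η hη).2⟩, hwp⟩, ?_,
        closure_mono sdiff_subset hp⟩⟩
      rintro rfl
      have h1 : closure (y '' Ico ξ Λ.ord \ U) ⊆ Uᶜ :=
        closure_minimal (fun z hz => hz.2) hU.isClosed_compl
      exact h1 hp hxU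
    · exact ⟨x, fun h => absurd h hξ⟩
  choose z hz using hex
  refine ⟨z, fun ξ hξ => ⟨(hz ξ hξ).1, (hz ξ hξ).2.1⟩, fun U hU => ?_⟩
  obtain ⟨C, hC, hCc, hCU⟩ := exists_mem_nhds_isClosed_subset hU
  obtain ⟨η, hη, h1⟩ := hyx C hC
  refine ⟨η, hη, fun ξ h2 h3 => hCU ?_⟩
  have h4 : closure (y '' Ico ξ Λ.ord) ⊆ C := by
    refine closure_minimal ?_ hCc
    rintro _ ⟨ζ, hζ, rfl⟩
    exact h1 ζ (h2.trans hζ.1) hζ.2
  exact h4 (hz ξ h3).2.2

/-- If eventually `q k ∈ b` implies `q (k + 1) ∈ b`, for all sets `b` of a base, then the sequence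
`q` converges. -/
theorem tendsto_of_hereditary [CompactSpace X] [T2Space X] {B : Set (Set X)}
    (hB : TopologicalSpace.IsTopologicalBasis B) {q : ℕ → X}
    (hq : ∀ b ∈ B, ∀ᶠ k in atTop, q k ∈ b → q (k + 1) ∈ b) : ∃ p, Tendsto q atTop (𝓝 p) := by
  obtain ⟨p, hp⟩ : ∃ p, MapClusterPt p atTop q := exists_clusterPt_of_compactSpace _
  refine ⟨p, tendsto_nhds_of_unique_mapClusterPt fun x hx => ?_⟩
  by_contra hne
  obtain ⟨U, V, hU, hV, hxU, hpV, hd⟩ := t2_separation hne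
  obtain ⟨b, hb, hpb, hbV⟩ := hB.exists_subset_of_mem_open hpV hV
  obtain ⟨K, hK⟩ := eventually_atTop.1 (hq b hb)
  obtain ⟨k₀, hk₀, hk₀b⟩ := frequently_atTop.1
    (mapClusterPt_iff_frequently.1 hp b ((hB.isOpen hb).mem_nhds hpb)) K
  have h1 : ∀ k, k₀ ≤ k → q k ∈ b := by
    intro k hk
    induction k, hk using Nat.le_induction with
    | base => exact hk₀b
    | succ k hk ih => exact hK k (hk₀.trans hk) ih
  obtain ⟨k, hk, hkU⟩ := frequently_atTop.1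
    (mapClusterPt_iff_frequently.1 hx U (hU.mem_nhds hxU)) k₀
  exact disjoint_left.1 hd hkU (hbV (h1 k hk))

/-- A compact space of small weight without convergent sequences has an infinite closed subspace
without long convergent sequences. -/
theorem exists_noLong {lam : ℕ → Cardinal.{0}} {κ : Cardinal.{0}}
    (hreg : ∀ n, (lam n).IsRegular) (hmono : StrictMono lam) (hD : Dir lam κ)
    [CompactSpace X] [T2Space X] [Infinite X] (hX : ¬ SeqConv X) {B : Set (Set X)}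
    (hB : TopologicalSpace.IsTopologicalBasis B) (hBκ : #B ≤ κ) :
    ∃ Y : Set X, IsClosed Y ∧ Y.Infinite ∧ ∃ N, ∀ n, N ≤ n → ¬ HasLong (lam n) Y := by
  classical
  by_contra hcon
  push Not at hcon
  have hG : ∀ (m : ℕ) (Y : Set X), ∃ Z : Set X, Z ⊆ Y ∧
      (IsClosed Y ∧ Y.Infinite → IsClosed Z ∧ Z.Infinite) ∧ (¬ HasLong (lam m) Z ∨
        ∀ Z', IsClosed Z' → Z'.Infinite → Z' ⊆ Y → HasLong (lam m) Z') := by
    intro m Y
    by_cases h : ∃ Z : Set X, IsClosed Z ∧ Z.Infinite ∧ Z ⊆ Y ∧ ¬ HasLong (lam m) Z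
    · obtain ⟨Z, h1, h2, h3, h4⟩ := h
      exact ⟨Z, h3, fun _ => ⟨h1, h2⟩, Or.inl h4⟩
    · push Not at h
      exact ⟨Y, subset_rfl, fun h1 => h1, Or.inr fun Z h1 h2 h3 => h Z h1 h2 h3⟩
  choose G hGs hGc hGd using hG
  let F : ℕ → Set X := fun n => Nat.rec univ (fun m Y => G m Y) n
  have hFs : ∀ m, F (m + 1) = G m (F m) := fun _ => rfl
  have hsub : ∀ m, F (m + 1) ⊆ F m := fun m => hGs m (F m)
  have hanti : Antitone F := antitone_nat_of_succ_le hsub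
  have hF : ∀ m, IsClosed (F m) ∧ (F m).Infinite := by
    intro m
    induction m with
    | zero => exact ⟨isClosed_univ, infinite_univ⟩
    | succ m ih => exact hGc m (F m) ih
  have hdich : ∀ m, ¬ HasLong (lam m) (F (m + 1)) ∨
      ∀ Z, IsClosed Z → Z.Infinite → Z ⊆ F m → HasLong (lam m) Z := fun m => hGd m (F m)
  set Y := ⋂ n, F n with hYdef
  have hYF : ∀ n, Y ⊆ F n := fun n => iInter_subset _ n
  have hYc : IsClosed Y := isClosed_iInter fun n => (hF n).1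
  have hYi : Y.Infinite := iInter_infinite hX hanti (fun n => (hF n).1) fun n => (hF n).2
  have hfreq : ∃ᶠ m in atTop, ∀ Z, IsClosed Z → Z.Infinite → Z ⊆ Y → HasLong (lam m) Z := by
    rw [frequently_atTop]
    intro N
    obtain ⟨n, hn, hn2⟩ := hcon Y hYc hYi N
    refine ⟨n, hn, ?_⟩
    rcases hdich n with h | h
    · exact absurd (hn2.mono (hYF (n + 1))) h
    · exact fun Z h1 h2 h3 => h Z h1 h2 (h3.trans (hYF n))
  obtain ⟨φ, hφ, hφL⟩ := extraction_of_frequently_atTop hfreq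
  obtain ⟨y₀, x₀, hx₀, hy₀, hyx₀⟩ := hφL 0 Y hYc hYi subset_rfl
  obtain ⟨q, -, hqne, hq⟩ := fusion (lam := lam ∘ φ) (fun n => hreg _) (hmono.comp hφ)
    (hD.comp hreg hφ) (I := B) hBκ (fun _ => univ) (fun b => (b : Set X))
    (fun k => LimPt (lam (φ k)) Y) x₀ ⟨y₀, hy₀, hyx₀⟩ (by
      intro k x hx
      obtain ⟨z, hz, hzx⟩ := long_step hX hYc (hφL (k + 1)) hx
      exact ⟨z, hz, fun b _ hxb => hzx b ((hB.isOpen b.2).mem_nhds hxb)⟩)
  obtain ⟨p, hp⟩ := tendsto_of_hereditary hB (q := q) fun b hb =>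
    hq ⟨b, hb⟩ (Eventually.of_forall fun _ => mem_univ _)
  obtain ⟨u, p', -, hu, hup⟩ := hasConv_of_ne isClosed_univ (fun _ => mem_univ _) hqne hp
  exact hX ⟨u, p', fun n => (hu n).2, hup⟩

end Pool.BC8080
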